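import Mathlib

open SimpleGraph Finset

namespace Pool.Agent.Results.MP_6784b8_co.SuspensionDisproof

/-- The suspension of a graph: one new vertex `none` joined to every old vertex. -/
def suspension {V : Type*} (H : SimpleGraph V) : SimpleGraph (Option V) where
  Adj a b := match a, b with
    | none, none => False
    | none, some _ => True
    | some _, none => True
    | some u, some v => H.Adj u v
  symm := ⟨by
    rintro (_ | u) (_ | v) h
    · exact h
    · trivial
    · trivial
    · exact SimpleGraph.Adj.symm h⟩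
  loopless := ⟨by
    rintro (_ | u) h
    · exact h
    · exact H.loopless.irrefl u h⟩

/-- `f(n,k)`: the maximum of `n₀ n₁ + ⌊(k-1) n₀ / 2⌋` over `n₀ + n₁ = n`. -/
def f (n k : ℕ) : ℕ :=
  (antidiagonal n).sup (fun p => p.1 * p.2 + (k - 1) * p.1 / 2)

/-- The tree on seven vertices: `0` and `1` are the two vertices of the smaller class, `2` is
adjacent to both, `3, 4` are leaves at `0`, and `5, 6` are leaves at `1`. -/
def T : SimpleGraph (Fin 7) :=
  SimpleGraph.fromRel (fun a b : Fin 7 =>
    (a = 0 ∧ (b = 2 ∨ b = 3 ∨ b = 4)) ∨ (a = 1 ∧ (b = 2 ∨ b = 5 ∨ b = 6)))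

instance : DecidableRel T.Adj := by
  intro a b
  unfold T
  rw [SimpleGraph.fromRel_adj]
  infer_instance

lemma T_connected : T.Connected := by
  rw [SimpleGraph.connected_iff_exists_forall_reachable]
  refine ⟨2, ?_⟩
  have h20 : T.Adj 2 0 := by decide
  have h21 : T.Adj 2 1 := by decide
  have h03 : T.Adj 0 3 := by decide
  have h04 : T.Adj 0 4 := by decide
  have h15 : T.Adj 1 5 := by decide
  have h16 : T.Adj 1 6 := by decide
  intro w
  fin_cases w
  · exact h20.reachable
  · exact h21.reachable
  · exact Reachable.refl _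
  · exact h20.reachable.trans h03.reachable
  · exact h20.reachable.trans h04.reachable
  · exact h21.reachable.trans h15.reachable
  · exact h21.reachable.trans h16.reachable

lemma T_card : T.edgeFinset.card = 6 := by decide

lemma T_isTree : T.IsTree := by
  rw [isTree_iff_connected_and_card]
  refine ⟨T_connected, ?_⟩
  rw [Nat.card_eq_fintype_card, ← edgeFinset_card, T_card]
  simp

/-- The host graph on `4 q` vertices: complete bipartite between the two sides, plus a perfect
matching inside each side. -/
def host (q : ℕ) : SimpleGraph (Bool × Fin q × Bool) where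
  Adj a b := a.1 ≠ b.1 ∨ (a.1 = b.1 ∧ a.2.1 = b.2.1 ∧ a.2.2 ≠ b.2.2)
  symm := ⟨by
    rintro a b (h | ⟨h1, h2, h3⟩)
    · exact Or.inl h.symm
    · exact Or.inr ⟨h1.symm, h2.symm, h3.symm⟩⟩
  loopless := ⟨by
    rintro a (h | ⟨h1, h2, h3⟩)
    · exact h rfl
    · exact h3 rfl⟩

instance (q : ℕ) : DecidableRel (host q).Adj := by
  intro a b
  unfold host
  infer_instance

lemma host_degree (q : ℕ) (v : Bool × Fin q × Bool) : (host q).degree v = 2 * q + 1 := by
  rw [← card_neighborFinset_eq_degree]
  have : (host q).neighborFinset v =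
      insert (v.1, v.2.1, !v.2.2) (({!v.1} : Finset Bool) ×ˢ (univ : Finset (Fin q × Bool))) := by
    ext w
    rw [mem_neighborFinset]
    obtain ⟨s, i, b⟩ := v
    obtain ⟨s', i', b'⟩ := w
    simp only [host, mem_insert, mem_product, mem_singleton, mem_univ, and_true, Prod.mk.injEq]
    cases s <;> cases s' <;> cases b <;> cases b' <;> simp [eq_comm]
  rw [this, card_insert_of_notMem]
  · simp [mul_comm]
  · simp

lemma host_edges (q : ℕ) : (host q).edgeFinset.card = 4 * q * q + 2 * q := by
  have h := (host q).sum_degrees_eq_twice_card_edges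
  simp only [host_degree, sum_const, card_univ, Fintype.card_prod, Fintype.card_bool,
    Fintype.card_fin, smul_eq_mul] at h
  nlinarith

lemma common (q : ℕ) (v w g : Bool × Fin q × Bool) (hvw : v.1 ≠ w.1)
    (h1 : (host q).Adj v g) (h2 : (host q).Adj w g) :
    g = (v.1, v.2.1, !v.2.2) ∨ g = (w.1, w.2.1, !w.2.2) := by
  obtain ⟨s, i, b⟩ := v
  obtain ⟨s', i', b'⟩ := w
  obtain ⟨s'', i'', b''⟩ := g
  simp only [host] at h1 h2 hvw ⊢
  simp only [Prod.mk.injEq]
  rcases h1 with h1 | ⟨e1, e2, e3⟩
  · rcases h2 with h2 | ⟨e1, e2, e3⟩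
    · exfalso
      cases s <;> cases s' <;> cases s'' <;> simp_all
    · right
      refine ⟨e1.symm, e2.symm, ?_⟩
      cases b' <;> cases b'' <;> simp_all
  · left
    refine ⟨e1.symm, e2.symm, ?_⟩
    cases b <;> cases b'' <;> simp_all

lemma no_three (q : ℕ) (v w g1 g2 g3 : Bool × Fin q × Bool) (hvw : v.1 ≠ w.1)
    (h1 : (host q).Adj v g1) (h1' : (host q).Adj w g1)
    (h2 : (host q).Adj v g2) (h2' : (host q).Adj w g2)
    (h3 : (host q).Adj v g3) (h3' : (host q).Adj w g3)
    (n12 : g1 ≠ g2) (n13 : g1 ≠ g3) (n23 : g2 ≠ g3) : False := by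
  rcases common q v w g1 hvw h1 h1' with a | a <;>
  rcases common q v w g2 hvw h2 h2' with b | b <;>
  rcases common q v w g3 hvw h3 h3' with c | c <;>
  first
    | exact n12 (a.trans b.symm)
    | exact n13 (a.trans c.symm)
    | exact n23 (b.trans c.symm)

lemma host_free (q : ℕ) : (suspension T).Free (host q) := by
  rintro ⟨φ⟩
  have inj := φ.injective
  have adj : ∀ {a b}, (suspension T).Adj a b → (host q).Adj (φ a) (φ b) := fun h => φ.toHom.map_adj h
  have apex : ∀ a : Fin 7, (host q).Adj (φ none) (φ (some a)) := fun a =>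
    adj (show (suspension T).Adj none (some a) from trivial)
  have old : ∀ a b : Fin 7, T.Adj a b → (host q).Adj (φ (some a)) (φ (some b)) := fun a b h =>
    adj (show (suspension T).Adj (some a) (some b) from h)
  have ne : ∀ a b : Fin 7, a ≠ b → φ (some a) ≠ φ (some b) := fun a b h e => h (by
    have := inj e
    simpa using this)
  by_cases hx : (φ none).1 ≠ (φ (some 0)).1
  · exact no_three q (φ none) (φ (some 0)) (φ (some 2)) (φ (some 3)) (φ (some 4)) hx
      (apex 2) (old 0 2 (by decide)) (apex 3) (old 0 3 (by decide)) (apex 4) (old 0 4 (by decide))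
      (ne _ _ (by decide)) (ne _ _ (by decide)) (ne _ _ (by decide))
  by_cases hy : (φ none).1 ≠ (φ (some 1)).1
  · exact no_three q (φ none) (φ (some 1)) (φ (some 2)) (φ (some 5)) (φ (some 6)) hy
      (apex 2) (old 1 2 (by decide)) (apex 5) (old 1 5 (by decide)) (apex 6) (old 1 6 (by decide))
      (ne _ _ (by decide)) (ne _ _ (by decide)) (ne _ _ (by decide))
  push Not at hx hy
  have h0 := apex 0
  have h1 := apex 1
  apply ne 0 1 (by decide)
  have key : ∀ w : Bool × Fin q × Bool, (host q).Adj (φ none) w → (φ none).1 = w.1 →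
      w = ((φ none).1, (φ none).2.1, !(φ none).2.2) := by
    rintro ⟨s, i, b⟩ hw hs
    rcases hw with hw | ⟨e1, e2, e3⟩
    · exact absurd hs hw
    · simp only at e1 e2 e3
      rw [e1, e2]
      simp only [Prod.mk.injEq, true_and]
      generalize (φ none).2.2 = c at e3
      cases c <;> cases b <;> simp_all
  rw [key _ h0 hx, key _ h1 hy]

lemma f_bound (q : ℕ) (hq : 1 ≤ q) : f (4 * q) 2 < 4 * q * q + 2 * q := by
  unfold f
  rw [Finset.sup_lt_iff (by positivity)]
  rintro ⟨a, b⟩ hab
  rw [HasAntidiagonal.mem_antidiagonal] at hab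
  simp only at hab ⊢
  have h2 : 2 * ((2 - 1) * a / 2) ≤ a := by
    have := Nat.mul_div_le ((2 - 1) * a) 2
    simpa using this
  generalize (2 - 1) * a / 2 = c at h2 ⊢
  obtain rfl | hb := Nat.eq_zero_or_pos b
  · nlinarith
  · have hb1 : a < 4 * q := by omega
    zify at *
    nlinarith [sq_nonneg ((a : ℤ) - b)]

/-- The bound `ex(n, T̂) ≤ f(n,k)` conjectured for the suspension of every tree fails for the tree
`T` above (smaller colour class of size `2`) at every positive multiple of `4`. -/
theorem result :
    T.IsTree ∧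
    (∃ c : T.Coloring Bool,
      min (#{v | c v = true}) (#{v | c v = false}) = 2) ∧
    ∀ q : ℕ, 1 ≤ q → f (4 * q) 2 < extremalNumber (4 * q) (suspension T) := by
  refine ⟨T_isTree, ?_, ?_⟩
  · refine ⟨Coloring.mk (fun v => decide (v = 0 ∨ v = 1)) ?_, ?_⟩
    · intro a b h
      revert a b
      decide
    · decide
  · intro q hq
    have hc : Fintype.card (Bool × Fin q × Bool) = 4 * q := by
      simp [Fintype.card_prod]
      ring
    have := card_edgeFinset_le_extremalNumber (host_free q)
    rw [hc, host_edges] at this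
    exact lt_of_lt_of_le (f_bound q hq) this

end Pool.Agent.Results.MP_6784b8_co.SuspensionDisproof
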